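import Pool.Agent.Helper88.CR.GoalsA
import Pool.Agent.Helper37.PP.HM
import Pool.Agent.Helper73.RR.RK

/-!
# Packet CR-ZB: the trivial character
-/

set_option autoImplicit false

open Finset Filter Topology

open scoped Classical ArithmeticFunction

namespace Pool.Agent.Helper55.CR

open Pool.Agent.Helper88.CR

/-- `u^(-s)` on `[n, n+1]`. -/
theorem cpow_diff {n : ℝ} (hn : 1 ≤ n) {s : ℂ} (hs : 1 < s.re) {u : ℝ} (hu : u ∈ Set.Icc n (n + 1)) :
    ‖((n + 1 : ℝ) : ℂ) ^ (-s) - ((u : ℝ) : ℂ) ^ (-s)‖ ≤ ‖s‖ / n ^ 2 := by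
  have hn0 : 0 < n := by linarith
  have hs0 : s ≠ 0 := by
    intro h
    rw [h] at hs
    norm_num at hs
  have key : ∀ x ∈ Set.Icc n (n + 1), HasDerivWithinAt (fun v : ℝ => ((v : ℝ) : ℂ) ^ (-s))
      (-s * ((x : ℝ) : ℂ) ^ (-s - 1)) (Set.Icc n (n + 1)) x := by
    intro x hx
    have hx0 : 0 < x := by linarith [hx.1]
    have h1 : HasDerivAt (fun y : ℝ => ((y : ℝ) : ℂ)) 1 x := Complex.ofRealCLM.hasDerivAt
    have h2 : HasDerivAt (fun y : ℂ => y ^ (-s)) (-s * ((x : ℝ) : ℂ) ^ (-s - 1) * 1) (x : ℂ) :=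
      (hasDerivAt_id (x : ℂ)).cpow_const (Or.inl (by simpa using hx0))
    have h3 := (h2.comp_ofReal (z := x))
    simpa using h3.hasDerivWithinAt
  have bound : ∀ x ∈ Set.Icc n (n + 1), ‖-s * ((x : ℝ) : ℂ) ^ (-s - 1)‖ ≤ ‖s‖ / n ^ 2 := by
    intro x hx
    have hx0 : 0 < x := by linarith [hx.1]
    rw [norm_mul, norm_neg, Complex.norm_cpow_eq_rpow_re_of_pos hx0, div_eq_mul_inv]
    refine mul_le_mul_of_nonneg_left ?_ (norm_nonneg _)
    have e1 : (-s - 1).re = -(s.re + 1) := by simp; ring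
    rw [e1, Real.rpow_neg hx0.le]
    have e2 : n ^ 2 ≤ x ^ (s.re + 1) := by
      calc n ^ 2 = n ^ (2 : ℝ) := by norm_cast
        _ ≤ x ^ (2 : ℝ) := Real.rpow_le_rpow hn0.le hx.1 (by norm_num)
        _ ≤ x ^ (s.re + 1) := Real.rpow_le_rpow_of_exponent_le (hn.trans hx.1) (by linarith)
    exact inv_anti₀ (by positivity) e2
  have := (convex_Icc n (n + 1)).norm_image_sub_le_of_norm_hasDerivWithin_le key bound hu
    (Set.right_mem_Icc.2 (by linarith))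
  refine this.trans ?_
  have h4 : ‖n + 1 - u‖ ≤ 1 := by
    rw [Real.norm_of_nonneg (by linarith [hu.2])]
    linarith [hu.1]
  have h5 : 0 ≤ ‖s‖ / n ^ 2 := by positivity
  calc ‖s‖ / n ^ 2 * ‖n + 1 - u‖ ≤ ‖s‖ / n ^ 2 * 1 := mul_le_mul_of_nonneg_left h4 h5
    _ = _ := mul_one _

theorem err_bound {n : ℝ} (hn : 1 ≤ n) {s : ℂ} (hs : 1 < s.re) :
    ‖((n + 1 : ℝ) : ℂ) ^ (1 - s) / (1 - s) - ((n : ℝ) : ℂ) ^ (1 - s) / (1 - s)
      - ((n + 1 : ℝ) : ℂ) ^ (-s)‖ ≤ ‖s‖ / n ^ 2 := by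
  have hn0 : 0 < n := by linarith
  have hs1 : 1 - s ≠ 0 := by
    intro h
    have : (1 - s).re = 0 := by rw [h]; simp
    simp at this
    linarith
  have key : ∀ x ∈ Set.Icc n (n + 1), HasDerivWithinAt
      (fun v : ℝ => ((v : ℝ) : ℂ) ^ (1 - s) / (1 - s) - ((v : ℝ) : ℂ) * ((n + 1 : ℝ) : ℂ) ^ (-s))
      (((x : ℝ) : ℂ) ^ (-s) - ((n + 1 : ℝ) : ℂ) ^ (-s)) (Set.Icc n (n + 1)) x := by
    intro x hx
    have hx0 : 0 < x := by linarith [hx.1]
    have h2 : HasDerivAt (fun y : ℂ => y ^ (1 - s)) ((1 - s) * ((x : ℝ) : ℂ) ^ (1 - s - 1) * 1)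
        (x : ℂ) :=
      (hasDerivAt_id (x : ℂ)).cpow_const (Or.inl (by simpa using hx0))
    have h3 : HasDerivAt (fun v : ℂ => v ^ (1 - s) / (1 - s) - v * ((n + 1 : ℝ) : ℂ) ^ (-s))
        ((1 - s) * ((x : ℝ) : ℂ) ^ (1 - s - 1) * 1 / (1 - s) - 1 * ((n + 1 : ℝ) : ℂ) ^ (-s))
        (x : ℂ) := (h2.div_const _).sub ((hasDerivAt_id (x : ℂ)).mul_const _)
    have h4 := (h3.comp_ofReal (z := x))
    have e1 : (1 - s) * ((x : ℝ) : ℂ) ^ (1 - s - 1) * 1 / (1 - s) - 1 * ((n + 1 : ℝ) : ℂ) ^ (-s) =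
        ((x : ℝ) : ℂ) ^ (-s) - ((n + 1 : ℝ) : ℂ) ^ (-s) := by
      have : (1 - s - 1) = -s := by ring
      rw [this]
      field_simp
    rw [e1] at h4
    exact h4.hasDerivWithinAt
  have bound : ∀ x ∈ Set.Icc n (n + 1), ‖((x : ℝ) : ℂ) ^ (-s) - ((n + 1 : ℝ) : ℂ) ^ (-s)‖
      ≤ ‖s‖ / n ^ 2 := by
    intro x hx
    rw [norm_sub_rev]
    exact cpow_diff hn hs hx
  have := (convex_Icc n (n + 1)).norm_image_sub_le_of_norm_hasDerivWithin_le key bound
    (Set.left_mem_Icc.2 (by linarith)) (Set.right_mem_Icc.2 (by linarith))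
  have h4 : ‖n + 1 - n‖ = 1 := by simp
  rw [h4, mul_one] at this
  refine le_trans (le_of_eq ?_) this
  congr 1
  push_cast
  ring

theorem tail_bound : ∃ C : ℝ, 0 < C ∧ ∀ z : ℕ, 16 ≤ z → ∀ s : ℂ, 1 < s.re → s.re ≤ 2 →
    |s.im| ≤ (z : ℝ) ^ (1 / 16 : ℝ) →
    ‖∑' n : ℕ, ((n + z + 1 : ℕ) : ℂ) ^ (-s)‖ ≤ C + 1 / ‖s - 1‖ := by
  have hS : Summable (fun n : ℕ => 1 / ((n : ℝ) + 1) ^ (3 / 2 : ℝ)) := by
    have h1 : Summable (fun n : ℕ => 1 / ((n : ℝ)) ^ (3 / 2 : ℝ)) :=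
      Real.summable_one_div_nat_rpow.2 (by norm_num)
    have h2 := (summable_nat_add_iff 1).2 h1
    simpa using h2
  set C0 := ∑' n : ℕ, 1 / ((n : ℝ) + 1) ^ (3 / 2 : ℝ) with hC0
  have hC0n : 0 ≤ C0 := tsum_nonneg fun n => by positivity
  refine ⟨3 * C0 + 1, by positivity, fun z hz s hs1 hs2 him => ?_⟩
  have hz0 : (0 : ℝ) < z := by
    have : (16 : ℝ) ≤ z := by exact_mod_cast hz
    linarith
  have hz1 : (1 : ℝ) ≤ z := by
    have : (16 : ℝ) ≤ z := by exact_mod_cast hz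
    linarith
  let f : ℕ → ℂ := fun n => (((n + z : ℕ) : ℝ) : ℂ) ^ (1 - s) / (1 - s)
  let a : ℕ → ℂ := fun n => ((n + z + 1 : ℕ) : ℂ) ^ (-s)
  let e : ℕ → ℂ := fun n => f (n + 1) - f n - a n
  have hsnorm : ‖s‖ ≤ 3 * (z : ℝ) ^ (1 / 2 : ℝ) := by
    have h1 := Complex.norm_le_abs_re_add_abs_im s
    have h2 : |s.re| ≤ 2 := by rw [abs_of_pos (by linarith)]; exact hs2
    have h3 : (z : ℝ) ^ (1 / 16 : ℝ) ≤ (z : ℝ) ^ (1 / 2 : ℝ) :=
      Real.rpow_le_rpow_of_exponent_le hz1 (by norm_num)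
    have h4 : (1 : ℝ) ≤ (z : ℝ) ^ (1 / 2 : ℝ) := Real.one_le_rpow hz1 (by norm_num)
    linarith
  have he : ∀ n, ‖e n‖ ≤ 3 * (1 / ((n : ℝ) + 1) ^ (3 / 2 : ℝ)) := by
    intro n
    have h1 : (1 : ℝ) ≤ ((n + z : ℕ) : ℝ) := by
      push_cast
      have : (0 : ℝ) ≤ n := n.cast_nonneg
      linarith
    have h2 := err_bound (n := ((n + z : ℕ) : ℝ)) h1 hs1
    have h3 : ‖e n‖ ≤ ‖s‖ / ((n + z : ℕ) : ℝ) ^ 2 := by
      refine le_trans (le_of_eq ?_) h2
      simp only [e, f, a]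
      congr 1
      push_cast
      ring_nf
    refine h3.trans ?_
    have h4 : (z : ℝ) ^ (1 / 2 : ℝ) * ((n : ℝ) + 1) ^ (3 / 2 : ℝ) ≤ ((n + z : ℕ) : ℝ) ^ 2 := by
      have h5 : (z : ℝ) ≤ ((n + z : ℕ) : ℝ) := by
        push_cast
        have : (0 : ℝ) ≤ n := n.cast_nonneg
        linarith
      have h6 : (n : ℝ) + 1 ≤ ((n + z : ℕ) : ℝ) := by
        push_cast
        linarith
      calc (z : ℝ) ^ (1 / 2 : ℝ) * ((n : ℝ) + 1) ^ (3 / 2 : ℝ)
          ≤ ((n + z : ℕ) : ℝ) ^ (1 / 2 : ℝ) * ((n + z : ℕ) : ℝ) ^ (3 / 2 : ℝ) := by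
            apply mul_le_mul
            · exact Real.rpow_le_rpow hz0.le h5 (by norm_num)
            · exact Real.rpow_le_rpow (by positivity) h6 (by norm_num)
            · positivity
            · positivity
        _ = ((n + z : ℕ) : ℝ) ^ (2 : ℝ) := by
            rw [← Real.rpow_add (by linarith)]
            norm_num
        _ = ((n + z : ℕ) : ℝ) ^ 2 := by norm_cast
    have h7 : 0 < (z : ℝ) ^ (1 / 2 : ℝ) * ((n : ℝ) + 1) ^ (3 / 2 : ℝ) := by positivity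
    calc ‖s‖ / ((n + z : ℕ) : ℝ) ^ 2
        ≤ (3 * (z : ℝ) ^ (1 / 2 : ℝ)) / ((z : ℝ) ^ (1 / 2 : ℝ) * ((n : ℝ) + 1) ^ (3 / 2 : ℝ)) := by
          apply div_le_div₀ (by positivity) hsnorm h7 h4
      _ = 3 * (1 / ((n : ℝ) + 1) ^ (3 / 2 : ℝ)) := by
          field_simp
  have heS : Summable e := Summable.of_norm_bounded (hS.mul_left 3) he
  have heN : ‖∑' n, e n‖ ≤ 3 * C0 := by
    rw [hC0, ← tsum_mul_left]
    exact tsum_of_norm_bounded (hS.mul_left 3).hasSum he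
  have haS : Summable a := by
    have h1 : Summable (fun n : ℕ => 1 / ((n : ℂ)) ^ s) := Complex.summable_one_div_nat_cpow.2 hs1
    have h2 := (summable_nat_add_iff (z + 1)).2 h1
    refine h2.congr fun n => ?_
    simp only [a]
    rw [Complex.cpow_neg, one_div]
    congr 3
  have hf0 : Tendsto f atTop (𝓝 0) := by
    have h1 : ∀ n, ‖f n‖ = ((n + z : ℕ) : ℝ) ^ (-(s.re - 1)) / ‖1 - s‖ := by
      intro n
      have h2 : (0 : ℝ) < ((n + z : ℕ) : ℝ) := by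
        push_cast
        have : (0 : ℝ) ≤ n := n.cast_nonneg
        linarith
      simp only [f]
      rw [norm_div, Complex.norm_cpow_eq_rpow_re_of_pos h2]
      congr 2
      simp
    rw [tendsto_zero_iff_norm_tendsto_zero]
    simp_rw [h1]
    have h2 : Tendsto (fun n : ℕ => ((n + z : ℕ) : ℝ) ^ (-(s.re - 1))) atTop (𝓝 0) := by
      have h3 := tendsto_rpow_neg_atTop (y := s.re - 1) (by linarith)
      refine h3.comp ?_
      exact tendsto_natCast_atTop_atTop.comp (tendsto_add_atTop_nat z)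
    have := h2.div_const ‖1 - s‖
    rwa [zero_div] at this
  have hsum : ∑' n, a n + ∑' n, e n = - f 0 := by
    have h1 : HasSum (fun n => a n + e n) (∑' n, a n + ∑' n, e n) := haS.hasSum.add heS.hasSum
    have h2 := h1.tendsto_sum_nat
    have h3 : ∀ N, ∑ n ∈ range N, (a n + e n) = f N - f 0 := by
      intro N
      rw [← Finset.sum_range_sub]
      refine Finset.sum_congr rfl fun n _ => ?_
      simp only [e]
      ring
    simp_rw [h3] at h2
    have h4 : Tendsto (fun N => f N - f 0) atTop (𝓝 (0 - f 0)) := hf0.sub_const _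
    rw [zero_sub] at h4
    exact tendsto_nhds_unique h2 h4
  have hf : ‖f 0‖ ≤ 1 / ‖s - 1‖ := by
    simp only [f]
    rw [norm_div, zero_add, Complex.norm_cpow_eq_rpow_re_of_pos hz0, norm_sub_rev (1 : ℂ) s]
    apply div_le_div_of_nonneg_right _ (norm_nonneg _)
    apply Real.rpow_le_one_of_one_le_of_nonpos hz1
    simp
    linarith
  have h5 : ∑' n, a n = - f 0 - ∑' n, e n := by rw [← hsum]; ring
  calc ‖∑' n : ℕ, ((n + z + 1 : ℕ) : ℂ) ^ (-s)‖ = ‖- f 0 - ∑' n, e n‖ := by rw [← h5]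
    _ ≤ ‖f 0‖ + ‖∑' n, e n‖ := by
        refine (norm_sub_le _ _).trans ?_
        rw [norm_neg]
    _ ≤ 1 / ‖s - 1‖ + 3 * C0 := add_le_add hf heN
    _ ≤ 3 * C0 + 1 + 1 / ‖s - 1‖ := by linarith

theorem gz_eq {z : ℕ} (hz : 16 ≤ z) {s : ℂ} (hs1 : 1 < s.re) :
    LL (gz z) 0 s = ∑' n : ℕ, ((n + z + 1 : ℕ) : ℂ) ^ (-s) := by
  unfold LL LSeries
  have hsm : Summable (LSeries.term (gj (gz z) 0) s) := by
    have h1 : Summable (fun n : ℕ => 1 / ((n : ℂ)) ^ s) := Complex.summable_one_div_nat_cpow.2 hs1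
    refine Summable.of_norm_bounded h1.norm fun n => ?_
    rw [LSeries.term_def]
    split_ifs with h
    · simp
    · rw [norm_div, norm_div]
      apply div_le_div_of_nonneg_right _ (norm_nonneg _)
      simp only [gj, gz]
      split_ifs <;> simp
  rw [← hsm.sum_add_tsum_nat_add (z + 1)]
  have h0 : ∑ n ∈ range (z + 1), LSeries.term (gj (gz z) 0) s n = 0 := by
    refine Finset.sum_eq_zero fun n hn => ?_
    have : ¬ z < n := by
      have := Finset.mem_range.1 hn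
      omega
    rw [LSeries.term_def]
    simp [gj, gz, this]
  rw [h0, zero_add]
  refine tsum_congr fun n => ?_
  rw [LSeries.term_def, if_neg (by omega)]
  have : z < n + (z + 1) := by omega
  simp only [gj, gz, this, if_true]
  rw [Complex.cpow_neg]
  simp [add_assoc]

theorem zb (h : StmtSC) : StmtZB := by
  obtain ⟨K, hK, hSC⟩ := h
  obtain ⟨C1, hC1, hT⟩ := tail_bound
  obtain ⟨C2, hC2, hMP⟩ := Pool.Agent.Helper37.PP.mp
  refine ⟨1 + K + C2 * C1 + C2, by nlinarith, fun z hz s hs1 hs2 him => ?_⟩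
  have hz2 : 2 ≤ z := by omega
  have hW : Wz z ≤ C2 / Real.log z := Pool.Agent.Helper73.RR.prod_le hMP hC2 z hz2
  have hlog : 1 ≤ Real.log z := by
    rw [Real.le_log_iff_exp_le (by positivity)]
    have h1 : (16 : ℝ) ≤ z := by exact_mod_cast hz
    have h2 := Real.exp_one_lt_d9
    linarith
  have hW0 : 0 ≤ Wz z := by
    unfold Wz
    refine Finset.prod_nonneg fun p hp => ?_
    have h1 := (Finset.mem_filter.1 hp).2.one_lt
    have h2 : (1 : ℝ) < p := by exact_mod_cast h1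
    rw [sub_nonneg, div_le_one (by linarith)]
    exact h2.le
  have hsc := hSC z 1 0 hz le_rfl (by simp; omega) (by simp) s 0 hs1 hs2 him
  simp only [Nat.totient_one, Nat.cast_one, div_one, pow_zero, mul_one] at hsc
  have hs10 : s - 1 ≠ 0 := by
    intro h0
    have : (s - 1).re = 0 := by rw [h0]; simp
    simp at this
    linarith
  have hn1 : 0 < ‖s - 1‖ := norm_pos_iff.2 hs10
  have hg : ‖LL (gz z) 0 s‖ ≤ C1 + 1 / ‖s - 1‖ := by
    rw [gz_eq hz hs1]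
    exact hT z hz s hs1 hs2 him
  have hci : LL (ci z 1 0) 0 s = 1 + LL (cu z 1 0) 0 s := by
    have hrg1 : rg z 1 := ⟨one_ne_zero, fun p hp hp1 => absurd (Nat.dvd_one.1 hp1) hp.one_lt.ne'⟩
    have hbase : Summable (fun n : ℕ => 1 / ((n : ℂ)) ^ s) :=
      Complex.summable_one_div_nat_cpow.2 hs1
    have hcu : Summable (LSeries.term (gj (cu z 1 0) 0) s) := by
      refine Summable.of_norm_bounded hbase.norm fun n => ?_
      rw [LSeries.term_def]
      split_ifs with h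
      · simp
      · rw [norm_div, norm_div]
        apply div_le_div_of_nonneg_right _ (norm_nonneg _)
        simp only [gj, cu]
        split_ifs <;> simp
    have h1 : Summable (fun n : ℕ => if n = 1 then (1 : ℂ) else 0) :=
      (hasSum_ite_eq 1 (1 : ℂ)).summable
    have h2 : LL (ci z 1 0) 0 s = ∑' n : ℕ, ((if n = 1 then (1 : ℂ) else 0) +
        LSeries.term (gj (cu z 1 0) 0) s n) := by
      unfold LL LSeries
      refine tsum_congr fun n => ?_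
      rw [LSeries.term_def, LSeries.term_def]
      by_cases hn0 : n = 0
      · subst hn0
        simp
      · rw [if_neg hn0, if_neg hn0]
        by_cases hn1 : n = 1
        · subst hn1
          simp [gj, ci, cu, hrg1]
        · simp [gj, ci, cu, hn1]
    rw [h2, h1.tsum_add hcu, tsum_ite_eq]
    rfl
  have hcu : ‖LL (cu z 1 0) 0 s‖ ≤ K + Wz z * (C1 + 1 / ‖s - 1‖) := by
    have h1 : LL (cu z 1 0) 0 s = (LL (cu z 1 0) 0 s - ((Wz z : ℝ) : ℂ) * LL (gz z) 0 s) +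
        ((Wz z : ℝ) : ℂ) * LL (gz z) 0 s := by ring
    rw [h1]
    refine (norm_add_le _ _).trans (add_le_add hsc ?_)
    rw [norm_mul, Complex.norm_real, Real.norm_of_nonneg hW0]
    exact mul_le_mul_of_nonneg_left hg hW0
  rw [hci]
  have hlog0 : 0 < Real.log z := by linarith
  have hWl : Wz z ≤ C2 := hW.trans (div_le_self hC2.le hlog)
  have h3 : Wz z * (1 / ‖s - 1‖) ≤ C2 * (1 / (Real.log z * ‖s - 1‖)) := by
    calc Wz z * (1 / ‖s - 1‖) ≤ C2 / Real.log z * (1 / ‖s - 1‖) :=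
          mul_le_mul_of_nonneg_right hW (by positivity)
      _ = C2 * (1 / (Real.log z * ‖s - 1‖)) := by field_simp
  have h4 : Wz z * C1 ≤ C2 * C1 := mul_le_mul_of_nonneg_right hWl hC1.le
  have h5 : 0 ≤ 1 / (Real.log z * ‖s - 1‖) := by positivity
  calc ‖1 + LL (cu z 1 0) 0 s‖ ≤ 1 + (K + Wz z * (C1 + 1 / ‖s - 1‖)) := by
        refine (norm_add_le _ _).trans ?_
        rw [norm_one]
        linarith
    _ = 1 + K + Wz z * C1 + Wz z * (1 / ‖s - 1‖) := by ring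
    _ ≤ 1 + K + C2 * C1 + C2 * (1 / (Real.log z * ‖s - 1‖)) := by linarith
    _ ≤ (1 + K + C2 * C1 + C2) * (1 + 1 / (Real.log z * ‖s - 1‖)) := by
        have h6 : 0 ≤ (1 + K + C2 * C1) * (1 / (Real.log z * ‖s - 1‖)) := by positivity
        nlinarith

end Pool.Agent.Helper55.CR
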