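import Pool.Agent.Helper10.CR.Goals1

/-! Packet CR-DOUBLE (MP_ca5fc5_al): nested diamonds give a scheme. -/

set_option autoImplicit false

universe u

namespace Pool.Agent.Helper55.CR

open Pool.Agent.Helper10.CR Pool.Agent.Helper72.Width

section dia

variable {L : Type u} [Lattice L] [IsModularLattice L]

/-- the second embedding of `[p, u]` -/
def kap (v w z : L) : L := (z ⊔ w) ⊓ v

/-- both embeddings -/
def iot (v w : L) : Bool → L → L
  | false, z => z
  | true, z => kap v w z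

variable {p u v w q : L}

theorem back (h : IsDiamond p u v w q) {z : L} (h1 : p ≤ z) (h2 : z ≤ u) : (z ⊔ w) ⊓ u = z := by
  rw [sup_inf_assoc_of_le w h2, inf_comm w u, h.uw, sup_eq_left.2 h1]

theorem kap_sup (h : IsDiamond p u v w q) {z : L} (h2 : z ≤ u) : kap v w z ⊔ w = z ⊔ w := by
  unfold kap
  rw [inf_sup_assoc_of_le v (le_sup_right : w ≤ z ⊔ w), h.vw']
  refine inf_eq_left.2 ?_
  rw [← h.uw']
  exact sup_le_sup_right h2 w

theorem kap_back (h : IsDiamond p u v w q) {z : L} (h1 : p ≤ z) (h2 : z ≤ u) :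
    (kap v w z ⊔ w) ⊓ u = z := by
  rw [kap_sup h h2, back h h1 h2]

theorem sup_meet (h : IsDiamond p u v w q) {z z' : L} (h1 : p ≤ z) (h2 : z ≤ u)
    (h1' : p ≤ z') (h2' : z' ≤ u) : (z ⊔ w) ⊓ (z' ⊔ w) = (z ⊓ z') ⊔ w := by
  have e1 : ((z ⊔ w) ⊓ (z' ⊔ w)) ⊓ u = z ⊓ z' := by
    have : ((z ⊔ w) ⊓ (z' ⊔ w)) ⊓ u = ((z ⊔ w) ⊓ u) ⊓ ((z' ⊔ w) ⊓ u) := by
      rw [inf_inf_distrib_right]
    rw [this, back h h1 h2, back h h1' h2']
  have e2 : (z ⊔ w) ⊓ (z' ⊔ w) ≤ q := by
    refine inf_le_left.trans ?_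
    rw [← h.uw']
    exact sup_le_sup_right h2 w
  have e3 : w ≤ (z ⊔ w) ⊓ (z' ⊔ w) := le_inf le_sup_right le_sup_right
  calc (z ⊔ w) ⊓ (z' ⊔ w) = ((z ⊔ w) ⊓ (z' ⊔ w)) ⊓ (u ⊔ w) := by
        rw [h.uw']; exact (inf_eq_left.2 e2).symm
    _ = ((z ⊔ w) ⊓ (z' ⊔ w)) ⊓ u ⊔ w := (inf_sup_assoc_of_le u e3).symm
    _ = (z ⊓ z') ⊔ w := by rw [e1]

theorem kap_meet (h : IsDiamond p u v w q) {z z' : L} (h1 : p ≤ z) (h2 : z ≤ u)
    (h1' : p ≤ z') (h2' : z' ≤ u) : kap v w (z ⊓ z') = kap v w z ⊓ kap v w z' := by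
  unfold kap
  rw [← sup_meet h h1 h2 h1' h2', inf_inf_distrib_right]

omit [IsModularLattice L] in
theorem p_le_v (h : IsDiamond p u v w q) : p ≤ v := by
  rw [← h.vw]; exact inf_le_left

omit [IsModularLattice L] in
theorem v_le_q (h : IsDiamond p u v w q) : v ≤ q := by
  rw [← h.vw']; exact le_sup_left

omit [IsModularLattice L] in
theorem u_le_q (h : IsDiamond p u v w q) : u ≤ q := by
  rw [← h.uv']; exact le_sup_left

theorem iot_ge (h : IsDiamond p u v w q) (i : Bool) {z : L} (h1 : p ≤ z) : p ≤ iot v w i z := by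
  cases i
  · exact h1
  · exact le_inf (h1.trans le_sup_left) (p_le_v h)

theorem iot_le (h : IsDiamond p u v w q) (i : Bool) {z : L} (h2 : z ≤ u) : iot v w i z ≤ q := by
  cases i
  · exact h2.trans (u_le_q h)
  · exact inf_le_right.trans (v_le_q h)

theorem iot_meet (h : IsDiamond p u v w q) (i : Bool) {z z' : L} (h1 : p ≤ z) (h2 : z ≤ u)
    (h1' : p ≤ z') (h2' : z' ≤ u) : iot v w i (z ⊓ z') = iot v w i z ⊓ iot v w i z' := by
  cases i
  · rfl
  · exact kap_meet h h1 h2 h1' h2'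

theorem iot_inj (h : IsDiamond p u v w q) (i : Bool) {z z' : L} (h1 : p ≤ z) (h2 : z ≤ u)
    (h1' : p ≤ z') (h2' : z' ≤ u) (he : iot v w i z = iot v w i z') : z = z' := by
  cases i
  · exact he
  · have he' : kap v w z = kap v w z' := he
    rw [← kap_back h h1 h2, ← kap_back h h1' h2', he']

end dia

section main

variable {L : Type u} [Lattice L] [IsModularLattice L] (v w : ℕ → L)

/-- the iterated embeddings -/
def EE : List Bool → L → L
  | [], z => z
  | i :: s, z => EE s (iot (v s.length) (w s.length) i z)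

theorem EE_spec {p u q : ℕ → L}
    (H : ∀ n, IsDiamond (p n) (u n) (v n) (w n) (q n) ∧ p n ≤ p (n + 1) ∧ q (n + 1) ≤ u n)
    (s : List Bool) : ∀ z z' : L, p s.length ≤ z → z ≤ q s.length → p s.length ≤ z' →
      z' ≤ q s.length → EE v w s (z ⊓ z') = EE v w s z ⊓ EE v w s z' ∧
        (EE v w s z = EE v w s z' → z = z') := by
  induction s with
  | nil => intro z z' _ _ _ _; exact ⟨rfl, fun h => h⟩
  | cons i s ih =>
    intro z z' h1 h2 h1' h2'
    obtain ⟨hd, hp, hq⟩ := H s.length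
    rw [List.length_cons] at h1 h2 h1' h2'
    have g1 := hp.trans h1
    have g2 := h2.trans hq
    have g1' := hp.trans h1'
    have g2' := h2'.trans hq
    have key := ih (iot (v s.length) (w s.length) i z) (iot (v s.length) (w s.length) i z')
      (iot_ge hd i g1) (iot_le hd i g2) (iot_ge hd i g1') (iot_le hd i g2')
    constructor
    · show EE v w s (iot (v s.length) (w s.length) i (z ⊓ z')) = _
      rw [iot_meet hd i g1 g2 g1' g2']
      exact key.1
    · intro he
      exact iot_inj hd i g1 g2 g1' g2' (key.2 he)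

theorem EE_mono {p u q : ℕ → L}
    (H : ∀ n, IsDiamond (p n) (u n) (v n) (w n) (q n) ∧ p n ≤ p (n + 1) ∧ q (n + 1) ≤ u n)
    (s : List Bool) {z z' : L} (h1 : p s.length ≤ z) (hz : z ≤ z') (h2' : z' ≤ q s.length) :
    EE v w s z ≤ EE v w s z' := by
  have h := (EE_spec v w H s z z' h1 (hz.trans h2') (h1.trans hz) h2').1
  rw [inf_eq_left.2 hz] at h
  rw [h]
  exact inf_le_right

theorem goalDouble : GoalDouble.{u} := by
  intro L _ _ hN
  obtain ⟨p, u, v, w, q, H⟩ := hN
  refine ⟨fun s => EE v w s (q s.length), fun s => EE v w s (p s.length), ?_⟩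
  have hpq : ∀ n, p n ≤ q n := fun n => ((H n).1.lt.le).trans (u_le_q (H n).1)
  have hpq' : ∀ n, p n < q n := fun n => ((H n).1.lt).trans_le (u_le_q (H n).1)
  have hi1 : ∀ (i : Bool) (n : ℕ), p n ≤ iot (v n) (w n) i (p (n + 1)) := fun i n =>
    iot_ge (H n).1 i (H n).2.1
  have hi2 : ∀ (i : Bool) (n : ℕ), iot (v n) (w n) i (q (n + 1)) ≤ q n := fun i n =>
    iot_le (H n).1 i (H n).2.2
  have hi3 : ∀ (i : Bool) (n : ℕ), iot (v n) (w n) i (p (n + 1)) ≤ q n := fun i n =>
    iot_le (H n).1 i ((hpq (n + 1)).trans (H n).2.2)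
  have hi4 : ∀ (i : Bool) (n : ℕ), p n ≤ iot (v n) (w n) i (q (n + 1)) := fun i n =>
    iot_ge (H n).1 i ((H n).2.1.trans (hpq (n + 1)))
  constructor
  · intro s
    refine lt_of_le_of_ne (EE_mono v w H s le_rfl (hpq _) le_rfl) fun he => ?_
    have := (EE_spec v w H s _ _ le_rfl (hpq _) (hpq _) le_rfl).2 he
    exact (hpq' _).ne this
  · intro i s
    exact EE_mono v w H s (hi4 i _) (hi2 i _) le_rfl
  · intro i s
    exact EE_mono v w H s le_rfl (hi1 i _) (hi3 i _)
  · intro i s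
    have e := (EE_spec v w H s _ _ (hi4 false s.length) (hi2 false _) (hi4 true _)
      (hi2 true _)).1
    have e1 : iot (v s.length) (w s.length) false (q (s.length + 1)) ⊓
        iot (v s.length) (w s.length) true (q (s.length + 1)) = p s.length := by
      refine le_antisymm ?_ (le_inf (hi4 false _) (hi4 true _))
      rw [← (H s.length).1.uv]
      exact inf_le_inf (H s.length).2.2 inf_le_right
    rw [e1] at e
    show EE v w s (iot (v s.length) (w s.length) false (q (s.length + 1))) ⊓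
      EE v w s (iot (v s.length) (w s.length) true (q (s.length + 1))) ≤
      EE v w s (iot (v s.length) (w s.length) i (p (s.length + 1)))
    rw [← e]
    exact EE_mono v w H s le_rfl (hi1 i _) (hi3 i _)

end main

end Pool.Agent.Helper55.CR
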